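import Mathlib
import Pool.Agent.K7.H49.CX.Gold

/-! Families of residues modulo a prime given by a bilinear form and arbitrary functions of one variable:
the exponential sums and the additive energy (helper49). -/

set_option autoImplicit false

namespace Pool.Agent.K7.H49.PR

open Finset
open Pool.Agent.H807R2.Dav
open Pool.Agent.H560R3.GB (energy)

/-- an enumeration of a finite set -/
lemma enumA {α : Type} (T : Finset α) (a₀ : α) : ∃ e : ℕ → α, (∀ m ∈ Icc 1 T.card, e m ∈ T) ∧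
    (∀ m ∈ Icc 1 T.card, ∀ n ∈ Icc 1 T.card, e m = e n → m = n) ∧ ∀ a ∈ T, ∃ m ∈ Icc 1 T.card, e m = a := by
  classical
  have hc : (Icc 1 T.card).card = T.card := by rw [Nat.card_Icc]; omega
  set E := Finset.equivOfCardEq hc with hE
  refine ⟨fun m => if h : m ∈ Icc 1 T.card then (E ⟨m, h⟩ : α) else a₀, ?_, ?_, ?_⟩
  · intro m hm
    simp only [dif_pos hm]
    exact (E ⟨m, hm⟩).2
  · intro m hm n hn h
    simp only [dif_pos hm, dif_pos hn] at h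
    have := E.injective (Subtype.ext h)
    exact congrArg Subtype.val this
  · intro a ha
    refine ⟨(E.symm ⟨a, ha⟩ : ℕ), (E.symm ⟨a, ha⟩).2, ?_⟩
    simp only [dif_pos (E.symm ⟨a, ha⟩).2]
    simp

/-- the residues -/
def res {p : ℕ} (α β : ZMod p → ZMod p) (w : ZMod p × ZMod p) : ℕ := (w.1 * w.2 + α w.1 + β w.2).val

/-- the additive character -/
lemma ee_val {p : ℕ} [NeZero p] (k : ℕ) (z : ZMod p) : ee ((k : ℝ) * ((z.val : ℝ) / p)) = ZMod.stdAddChar ((k : ZMod p) * z) := by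
  have h1 : ((k : ZMod p) * z) = ((k * z.val : ℕ) : ℤ) := by
    push_cast
    rw [ZMod.natCast_val, ZMod.cast_id', id]
  rw [h1, ZMod.stdAddChar_coe]
  unfold ee
  congr 1
  push_cast
  ring

/-- the bilinear exponential sums -/
lemma bil {p : ℕ} [Fact p.Prime] (U V : Finset (ZMod p)) (α β : ZMod p → ZMod p) (k : ℕ) (hk1 : 1 ≤ k) (hkp : k < p) :
    ‖∑ w ∈ U ×ˢ V, ee ((k : ℝ) * ((res α β w : ℝ) / p))‖ ^ 2 ≤ p * (U.card * V.card) := by
  classical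
  have hp0 : p ≠ 0 := (Fact.out : p.Prime).ne_zero
  set ψ : AddChar (ZMod p) ℂ := ZMod.stdAddChar with hψ
  have hprim : ψ.IsPrimitive := ZMod.isPrimitive_stdAddChar p
  have hk0 : (k : ZMod p) ≠ 0 := by
    intro h
    rw [ZMod.natCast_eq_zero_iff] at h
    exact absurd (Nat.le_of_dvd (by omega) h) (by omega)
  set κ : ZMod p := (k : ZMod p) with hκ
  have h1 : ∑ w ∈ U ×ˢ V, ee ((k : ℝ) * ((res α β w : ℝ) / p)) =
      ∑ u ∈ U, ψ (κ * α u) * ∑ v ∈ V, ψ (κ * (u * v) + κ * β v) := by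
    rw [sum_product]
    apply sum_congr rfl
    intro u _
    rw [mul_sum]
    apply sum_congr rfl
    intro v _
    unfold res
    rw [ee_val, ← AddChar.map_add_eq_mul]
    congr 1
    simp only
    ring
  rw [h1]
  have hnorm : ∀ z : ZMod p, ‖ψ z‖ = 1 := fun z => AddChar.norm_apply ψ z
  have h2 : ‖∑ u ∈ U, ψ (κ * α u) * ∑ v ∈ V, ψ (κ * (u * v) + κ * β v)‖ ^ 2 ≤
      U.card * ∑ u ∈ U, ‖∑ v ∈ V, ψ (κ * (u * v) + κ * β v)‖ ^ 2 := by
    have h3 : ‖∑ u ∈ U, ψ (κ * α u) * ∑ v ∈ V, ψ (κ * (u * v) + κ * β v)‖ ≤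
        ∑ u ∈ U, ‖∑ v ∈ V, ψ (κ * (u * v) + κ * β v)‖ := by
      refine (norm_sum_le _ _).trans (le_of_eq ?_)
      apply sum_congr rfl
      intro u _
      rw [norm_mul, hnorm, one_mul]
    calc _ ≤ (∑ u ∈ U, ‖∑ v ∈ V, ψ (κ * (u * v) + κ * β v)‖) ^ 2 := by gcongr
      _ ≤ _ := sq_sum_le_card_mul_sum_sq
  refine h2.trans ?_
  have h3 : ∑ u ∈ U, ‖∑ v ∈ V, ψ (κ * (u * v) + κ * β v)‖ ^ 2 ≤
      ∑ u : ZMod p, ‖∑ v ∈ V, ψ (κ * (u * v) + κ * β v)‖ ^ 2 :=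
    sum_le_sum_of_subset_of_nonneg (subset_univ _) fun _ _ _ => by positivity
  have h4 : ∑ u : ZMod p, ‖∑ v ∈ V, ψ (κ * (u * v) + κ * β v)‖ ^ 2 = p * V.card := by
    have h5 : ((∑ u : ZMod p, ‖∑ v ∈ V, ψ (κ * (u * v) + κ * β v)‖ ^ 2 : ℝ) : ℂ) = p * V.card := by
      push_cast
      have h6 : ∀ u : ZMod p, ((‖∑ v ∈ V, ψ (κ * (u * v) + κ * β v)‖ : ℝ) : ℂ) ^ 2 =
          ∑ v ∈ V, ∑ v' ∈ V, ψ (κ * β v - κ * β v') * ψ (u * (κ * (v - v'))) := by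
        intro u
        rw [← Complex.mul_conj', map_sum, sum_mul_sum]
        apply sum_congr rfl
        intro v _
        apply sum_congr rfl
        intro v' _
        rw [← AddChar.map_neg_eq_conj, ← AddChar.map_add_eq_mul, ← AddChar.map_add_eq_mul]
        congr 1
        ring
      simp only [h6]
      rw [sum_comm]
      have h7 : ∀ v ∈ V, ∑ u : ZMod p, ∑ v' ∈ V, ψ (κ * β v - κ * β v') * ψ (u * (κ * (v - v'))) = p := by
        intro v hv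
        rw [sum_comm]
        have h8 : ∀ v' ∈ V, ∑ u : ZMod p, ψ (κ * β v - κ * β v') * ψ (u * (κ * (v - v'))) =
            if v = v' then (p : ℂ) else 0 := by
          intro v' _
          rw [← mul_sum, AddChar.sum_mulShift _ hprim, ZMod.card]
          by_cases hvv : v = v'
          · subst hvv
            simp
          · rw [if_neg hvv, if_neg, Nat.cast_zero, mul_zero]
            exact mul_ne_zero hk0 (sub_ne_zero.2 hvv)
        rw [sum_congr rfl h8, sum_ite_eq, if_pos hv]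
      rw [sum_congr rfl h7, sum_const, nsmul_eq_mul]
      ring
    exact_mod_cast h5
  rw [h4] at h3
  calc _ ≤ (U.card : ℝ) * (p * V.card) := by gcongr
    _ = _ := by ring

/-- the energy of a pseudorandom family -/
lemma en_pr {α : Type} (T : Finset α) (t : α → ℕ) (q h : ℕ) (hq : 1 ≤ q) (ρ : ℝ)
    (hsup : ∀ k : ℕ, 1 ≤ k → k < q → ‖∑ a ∈ T, ee ((k : ℝ) * ((t a : ℝ) / q))‖ ≤ T.card * ρ)
    (e : ℕ → α) (he1 : ∀ m ∈ Icc 1 T.card, e m ∈ T)
    (he2 : ∀ m ∈ Icc 1 T.card, ∀ n ∈ Icc 1 T.card, e m = e n → m = n)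
    (he3 : ∀ a ∈ T, ∃ m ∈ Icc 1 T.card, e m = a) :
    (q : ℝ) * energy h T.card (fun m => t (e m)) ≤ (T.card : ℝ) ^ (2 * h) * (1 + q * ρ ^ (2 * h)) := by
  classical
  have h1 := Pool.Agent.H373R2.T7.energy_le h T.card (fun m => (t (e m) : ℤ) - 0) q hq
  have h2 := Pool.Agent.W93.GB.energy_eq h T.card (fun m => t (e m)) 0
  rw [h2] at h1
  have h3 : ∀ k : ℕ, ∑ m ∈ Icc 1 T.card, ee ((k : ℝ) * ((((t (e m) : ℤ) - 0 : ℤ) : ℝ) / q)) =
      ∑ a ∈ T, ee ((k : ℝ) * ((t a : ℝ) / q)) := by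
    intro k
    apply sum_bij (fun m _ => e m)
    · intro m hm; exact he1 m hm
    · intro m hm n hn h; exact he2 m hm n hn h
    · intro a ha
      obtain ⟨m, hm, hmn⟩ := he3 a ha
      exact ⟨m, hm, hmn⟩
    · intro m _
      simp
  simp only [h3] at h1
  refine h1.trans ?_
  rw [range_eq_Ico, sum_eq_sum_Ico_succ_bot (by omega)]
  have h4 : ‖∑ a ∈ T, ee (((0 : ℕ) : ℝ) * ((t a : ℝ) / q))‖ ^ (2 * h) ≤ (T.card : ℝ) ^ (2 * h) := by
    gcongr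
    refine (norm_sum_le _ _).trans ?_
    simp only [norm_ee, sum_const, nsmul_eq_mul, mul_one, le_refl]
  have h5 : ∑ k ∈ Ico (0 + 1) q, ‖∑ a ∈ T, ee ((k : ℝ) * ((t a : ℝ) / q))‖ ^ (2 * h) ≤
      q * ((T.card : ℝ) * ρ) ^ (2 * h) := by
    refine (sum_le_card_nsmul _ _ (((T.card : ℝ) * ρ) ^ (2 * h)) ?_).trans ?_
    · intro k hk
      rw [mem_Ico] at hk
      have := hsup k (by omega) hk.2
      gcongr
    · rw [nsmul_eq_mul, Nat.card_Ico]
      rcases Nat.eq_zero_or_pos h with rfl | hh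
      · simp
      · have h6 : 0 ≤ ((T.card : ℝ) * ρ) ^ (2 * h) := by
          rw [pow_mul]; positivity
        apply mul_le_mul_of_nonneg_right _ h6
        exact_mod_cast (by omega : q - (0 + 1) ≤ q)
  calc _ ≤ (T.card : ℝ) ^ (2 * h) + q * ((T.card : ℝ) * ρ) ^ (2 * h) := add_le_add h4 h5
    _ = _ := by rw [mul_pow]; ring

/-- the energy of a pseudorandom family, with a power saving in the exponential sums -/
theorem en_delta (δ : ℝ) (hδ : 0 < δ) : ∃ h : ℕ, 1 ≤ h ∧ ∀ (α : Type) (T : Finset α) (t : α → ℕ) (q : ℕ), 1 ≤ q →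
    (∀ k : ℕ, 1 ≤ k → k < q → ‖∑ a ∈ T, ee ((k : ℝ) * ((t a : ℝ) / q))‖ ≤ T.card * (q : ℝ) ^ (-δ)) →
    ∀ e : ℕ → α, (∀ m ∈ Icc 1 T.card, e m ∈ T) →
    (∀ m ∈ Icc 1 T.card, ∀ n ∈ Icc 1 T.card, e m = e n → m = n) →
    (∀ a ∈ T, ∃ m ∈ Icc 1 T.card, e m = a) →
    (energy h T.card (fun m => t (e m)) : ℝ) * q ≤ 2 * (T.card : ℝ) ^ (2 * h) := by
  obtain ⟨h, hh⟩ : ∃ h : ℕ, h = ⌈1 / δ⌉₊ := ⟨_, rfl⟩
  have hδh : 1 ≤ δ * h := by
    have h1 : 1 / δ ≤ h := by rw [hh]; exact Nat.le_ceil _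
    rw [div_le_iff₀ hδ] at h1
    linarith
  have hh1 : 1 ≤ h := by
    rw [hh]
    exact Nat.one_le_iff_ne_zero.2 (by rw [ne_eq, Nat.ceil_eq_zero, not_le]; positivity)
  refine ⟨h, hh1, fun α T t q hq hsup e he1 he2 he3 => ?_⟩
  have h1 := en_pr T t q h hq _ hsup e he1 he2 he3
  have hq0 : (0 : ℝ) < q := by exact_mod_cast hq
  have hq1 : (1 : ℝ) ≤ q := by exact_mod_cast hq
  have h2 : (q : ℝ) * ((q : ℝ) ^ (-δ)) ^ (2 * h) ≤ 1 := by
    rw [← Real.rpow_natCast, ← Real.rpow_mul hq0.le]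
    have h3 : (q : ℝ) ^ (-δ * ((2 * h : ℕ) : ℝ)) ≤ (q : ℝ) ^ (-1 : ℝ) := by
      apply Real.rpow_le_rpow_of_exponent_le hq1
      push_cast
      nlinarith
    rw [Real.rpow_neg_one] at h3
    calc _ ≤ (q : ℝ) * (q : ℝ)⁻¹ := by gcongr
      _ = 1 := mul_inv_cancel₀ hq0.ne'
  have h3 : 0 ≤ (T.card : ℝ) ^ (2 * h) := by positivity
  calc _ = (q : ℝ) * energy h T.card (fun m => t (e m)) := mul_comm _ _
    _ ≤ (T.card : ℝ) ^ (2 * h) * (1 + q * ((q : ℝ) ^ (-δ)) ^ (2 * h)) := h1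
    _ ≤ (T.card : ℝ) ^ (2 * h) * 2 := by gcongr; linarith
    _ = _ := mul_comm _ _

/-- Goldbach's problem in dilated and shifted pseudorandom families -/
theorem goldbach (C U : ℕ) (δ ε : ℝ) (hδ : 0 < δ) (hε : 0 < ε) : ∃ q₀ : ℕ, ∀ q : ℕ, q₀ ≤ q →
    ∀ (α : Type) (T : Finset α) (t : α → ℕ), (∀ a ∈ T, t a ≤ q) →
    (∀ k : ℕ, 1 ≤ k → k < q → ‖∑ a ∈ T, ee ((k : ℝ) * ((t a : ℝ) / q))‖ ≤ T.card * (q : ℝ) ^ (-δ)) →
    ∀ c κ : ℕ, 1 ≤ κ → ((c + κ * q : ℕ) : ℝ) ≤ q * Real.log q ^ C →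
    ∀ E ⊆ T, (∀ a ∈ E, 2 ∣ c + κ * t a ∧ ¬ Pool.Agent.W93.GB.Good ε (c + κ * t a)) →
      (E.card : ℝ) ≤ T.card / Real.log q ^ U := by
  classical
  obtain ⟨h, hh, hen⟩ := en_delta δ hδ
  obtain ⟨n1, hfew⟩ := Pool.Agent.K7.H49.CX.few h (C + 2) U hh ε hε
  obtain ⟨n2, hn2⟩ := Pool.Agent.K7.H49.SM.ev_log 2
  refine ⟨max (max n1 n2) 1, fun q hq α T t ht hsup c κ hκ hcκ E hE hEb => ?_⟩
  have hqn1 : n1 ≤ q := le_trans (le_trans (le_max_left _ _) (le_max_left _ _)) hq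
  have hL2 := hn2 q (le_trans (le_trans (le_max_right _ _) (le_max_left _ _)) hq)
  have hq1 : 1 ≤ q := le_trans (le_max_right _ _) hq
  have hq0 : (0 : ℝ) < q := by exact_mod_cast hq1
  rcases T.eq_empty_or_nonempty with hT | ⟨a₀, ha₀⟩
  · have hE0 : E = ∅ := by rw [hT] at hE; exact subset_empty.1 hE
    rw [hE0, hT]
    simp
  obtain ⟨e, he1, he2, he3⟩ := enumA T a₀
  have h1 := hen α T t q hq1 hsup e he1 he2 he3
  obtain ⟨L, hLd⟩ : ∃ L, L = Real.log (q : ℝ) := ⟨_, rfl⟩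
  rw [← hLd] at hL2 hcκ ⊢
  have hL0 : 0 < L := by linarith
  have hL1 : 1 ≤ L := by linarith
  obtain ⟨N, hN⟩ : ∃ N, N = q * ⌈L ^ C⌉₊ := ⟨_, rfl⟩
  have hceil : (L ^ C : ℝ) ≤ (⌈L ^ C⌉₊ : ℝ) := Nat.le_ceil _
  have hceil1 : 1 ≤ ⌈L ^ C⌉₊ := Nat.one_le_ceil_iff.2 (by positivity)
  have hqN : q ≤ N := by rw [hN]; exact Nat.le_mul_of_pos_right _ hceil1
  have hNr : (N : ℝ) ≤ q * L ^ (C + 1) := by
    rw [hN]
    push_cast
    apply mul_le_mul_of_nonneg_left _ hq0.le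
    have h1 : (⌈L ^ C⌉₊ : ℝ) < L ^ C + 1 := Nat.ceil_lt_add_one (by positivity)
    have h2 : (1 : ℝ) ≤ L ^ C := one_le_pow₀ hL1
    calc (⌈L ^ C⌉₊ : ℝ) ≤ L ^ C * 2 := by linarith
      _ ≤ L ^ C * L := by gcongr
      _ = _ := by ring
  have hLN : L ≤ Real.log N := by
    rw [hLd]
    exact Real.log_le_log hq0 (by exact_mod_cast hqN)
  have hN0 : (0 : ℝ) ≤ N := Nat.cast_nonneg _
  have hcN : ∀ m ∈ Icc 1 T.card, c + κ * t (e m) ≤ N := by
    intro m hm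
    have h2 : t (e m) ≤ q := ht _ (he1 m hm)
    have h3 : c + κ * t (e m) ≤ c + κ * q := by gcongr
    have h4 : ((c + κ * q : ℕ) : ℝ) ≤ N := by
      rw [hN]
      push_cast at hcκ ⊢
      refine hcκ.trans ?_
      gcongr
    have h5 : c + κ * q ≤ N := by exact_mod_cast h4
    omega
  have hen2 : (CX.enJ h (Icc 1 T.card) (fun m => ((c + κ * t (e m) : ℕ) : ℤ)) : ℝ) * N ≤
      Real.log N ^ (C + 2) * (T.card : ℝ) ^ (2 * h) := by
    have h2 : CX.enJ h (Icc 1 T.card) (fun m => ((c + κ * t (e m) : ℕ) : ℤ)) ≤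
        CX.enJ h (Icc 1 T.card) (fun m => (t (e m) : ℤ)) := by
      apply CX.enJ_map h _ _ _ _ (fun m => m) c κ (by exact_mod_cast (by omega : κ ≠ 0))
      · intro m hm; exact hm
      · intro m _ n _ h; exact h
      · intro m _
        push_cast
        ring
    have h2' := CX.energy_eq_enJ h T.card (fun m => t (e m))
    have h3 : (CX.enJ h (Icc 1 T.card) (fun m => ((c + κ * t (e m) : ℕ) : ℤ)) : ℝ) ≤
        energy h T.card (fun m => t (e m)) := by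
      rw [h2']
      exact_mod_cast h2
    calc _ ≤ (energy h T.card (fun m => t (e m)) : ℝ) * (q * L ^ (C + 1)) := by gcongr
      _ = (energy h T.card (fun m => t (e m)) : ℝ) * q * L ^ (C + 1) := by ring
      _ ≤ 2 * (T.card : ℝ) ^ (2 * h) * L ^ (C + 1) := by gcongr
      _ ≤ L * (T.card : ℝ) ^ (2 * h) * L ^ (C + 1) := by gcongr
      _ = L ^ (C + 2) * (T.card : ℝ) ^ (2 * h) := by ring
      _ ≤ _ := by gcongr
  have hfin := hfew N (hqn1.trans hqN) T.card (Icc 1 T.card) (fun m => c + κ * t (e m))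
    (by rw [Nat.card_Icc]; omega) hcN hen2 ((Icc 1 T.card).filter (fun m => e m ∈ E)) (filter_subset _ _) (by
      intro m hm
      exact hEb _ (mem_filter.1 hm).2)
  have hcardE : E.card ≤ ((Icc 1 T.card).filter (fun m => e m ∈ E)).card := by
    apply card_le_card_of_surjOn e
    intro a ha
    obtain ⟨m, hm, hma⟩ := he3 a (hE ha)
    refine ⟨m, ?_, hma⟩
    rw [mem_coe, mem_filter]
    exact ⟨hm, by rw [hma]; exact ha⟩
  have hpow : L ^ U ≤ Real.log N ^ U := pow_le_pow_left₀ hL0.le hLN U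
  calc (E.card : ℝ) ≤ ((Icc 1 T.card).filter (fun m => e m ∈ E)).card := Nat.cast_le.2 hcardE
    _ ≤ T.card / Real.log N ^ U := hfin
    _ ≤ T.card / L ^ U := div_le_div_of_nonneg_left (Nat.cast_nonneg _) (pow_pos hL0 U) hpow

/-- the exponential sums of a bilinear family with a power saving -/
lemma bil_delta {p : ℕ} [Fact p.Prime] (U V : Finset (ZMod p)) (α β : ZMod p → ZMod p) (δ : ℝ)
    (hUV : (p : ℝ) ^ (1 + 2 * δ) ≤ U.card * V.card) (k : ℕ) (hk1 : 1 ≤ k) (hkp : k < p) :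
    ‖∑ w ∈ U ×ˢ V, ee ((k : ℝ) * ((res α β w : ℝ) / p))‖ ≤ (U ×ˢ V).card * (p : ℝ) ^ (-δ) := by
  have h1 := bil U V α β k hk1 hkp
  have hp0 : (0 : ℝ) < p := by exact_mod_cast (Fact.out : p.Prime).pos
  have hx0 : (0 : ℝ) ≤ U.card * V.card := by positivity
  have h2 : ((U ×ˢ V).card : ℝ) = U.card * V.card := by rw [card_product]; push_cast; ring
  rw [h2]
  have h3 : (p : ℝ) * (U.card * V.card) ≤ ((U.card * V.card : ℝ) * (p : ℝ) ^ (-δ)) ^ 2 := by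
    have e1 : ((p : ℝ) ^ (-δ)) ^ 2 * (p : ℝ) ^ (1 + 2 * δ) = p := by
      rw [← Real.rpow_natCast, ← Real.rpow_mul hp0.le, ← Real.rpow_add hp0]
      have : -δ * ((2 : ℕ) : ℝ) + (1 + 2 * δ) = 1 := by push_cast; ring
      rw [this, Real.rpow_one]
    calc (p : ℝ) * (U.card * V.card) = ((p : ℝ) ^ (-δ)) ^ 2 * (p : ℝ) ^ (1 + 2 * δ) * (U.card * V.card) := by rw [e1]
      _ ≤ ((p : ℝ) ^ (-δ)) ^ 2 * (U.card * V.card) * (U.card * V.card) := by gcongr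
      _ = _ := by ring
  exact abs_le_of_sq_le_sq' (h1.trans h3) (by positivity) |>.2

end Pool.Agent.K7.H49.PR
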