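import Mathlib
import Pool.Agent.K7.H49.PR.Basic

/-! Consecutive terms of geometric progressions modulo a prime (helper49). -/

set_option autoImplicit false

namespace Pool.Agent.K7.H49.PR

open Finset

/-- powers of the logarithm are eventually small -/
lemma ev_pow (k : ℕ) (c δ : ℝ) (hδ : 0 < δ) : ∃ x0 : ℕ, ∀ x : ℕ, x0 ≤ x → c * Real.log x ^ k ≤ (x : ℝ) ^ δ := by
  have h := (isLittleO_log_rpow_rpow_atTop (k : ℝ) hδ).bound (show 0 < 1 / (|c| + 1) by positivity)
  have h2 := (tendsto_natCast_atTop_atTop (R := ℝ)).eventually h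
  obtain ⟨x0, hx0⟩ := Filter.eventually_atTop.1 h2
  refine ⟨max x0 1, fun x hx => ?_⟩
  have h3 := hx0 x (le_trans (le_max_left _ _) hx)
  have hx1 : (1 : ℝ) ≤ x := by exact_mod_cast le_trans (le_max_right _ _) hx
  have hlog : 0 ≤ Real.log x := Real.log_nonneg hx1
  rw [Real.rpow_natCast, Real.norm_of_nonneg (by positivity), Real.norm_of_nonneg (by positivity), one_div,
    inv_mul_eq_div, le_div_iff₀ (by positivity)] at h3
  have h4 : 0 ≤ Real.log (x : ℝ) ^ k := by positivity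
  calc c * Real.log x ^ k ≤ |c| * Real.log x ^ k := mul_le_mul_of_nonneg_right (le_abs_self c) h4
    _ ≤ Real.log x ^ k * (|c| + 1) := by nlinarith
    _ ≤ _ := h3

/-- from pairs to the terms of a geometric progression -/
lemma geo {p : ℕ} [Fact p.Prime] (b g : (ZMod p)ˣ) (x J : ℕ) (hJ1 : 1 ≤ J) (hJx : J ≤ x) (hx : x ≤ orderOf g)
    (P : ZMod p → Prop) [DecidablePred P] (Z : ℝ)
    (hZ : ∀ U V : Finset (ZMod p), U.card = x → V.card = J →
      (((U ×ˢ V).filter (fun w => P (w.1 * w.2))).card : ℝ) ≤ x * J / Z) :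
    (((Icc 1 x).filter (fun m => P (((b * g ^ m : (ZMod p)ˣ) : ZMod p)))).card : ℝ) ≤ J + x / Z := by
  classical
  have hinj : ∀ i j : ℕ, i < orderOf g → j < orderOf g → g ^ i = g ^ j → i = j := by
    intro i j hi hj h
    exact pow_injOn_Iio_orderOf (Set.mem_Iio.2 hi) (Set.mem_Iio.2 hj) h
  obtain ⟨U, hU⟩ : ∃ U : Finset (ZMod p), U = (range x).image (fun m => ((b * g ^ (m + 1) : (ZMod p)ˣ) : ZMod p)) := ⟨_, rfl⟩
  obtain ⟨V, hV⟩ : ∃ V : Finset (ZMod p), V = (range J).image (fun j => ((g ^ j : (ZMod p)ˣ) : ZMod p)) := ⟨_, rfl⟩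
  have hUc : U.card = x := by
    rw [hU, card_image_of_injOn, card_range]
    intro i hi j hj h
    simp only [coe_range, Set.mem_Iio] at hi hj
    have h1 : b * g ^ (i + 1) = b * g ^ (j + 1) := Units.ext h
    have h2 : g ^ (i + 1) = g ^ (j + 1) := mul_left_cancel h1
    rw [pow_succ, pow_succ] at h2
    exact hinj i j (by omega) (by omega) (mul_right_cancel h2)
  have hVc : V.card = J := by
    rw [hV, card_image_of_injOn, card_range]
    intro i hi j hj h
    simp only [coe_range, Set.mem_Iio] at hi hj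
    exact hinj i j (by omega) (by omega) (Units.ext h)
  have h1 := hZ U V hUc hVc
  obtain ⟨E, hE⟩ : ∃ E, E = (Icc 1 x).filter (fun m => P (((b * g ^ m : (ZMod p)ˣ) : ZMod p))) := ⟨_, rfl⟩
  rw [← hE]
  have hsplit : E.card ≤ J + (E.filter (fun m => J ≤ m)).card := by
    have h2 : E ⊆ Icc 1 J ∪ E.filter (fun m => J ≤ m) := by
      intro m hm
      rw [mem_union, mem_Icc, mem_filter]
      have h3 : 1 ≤ m ∧ m ≤ x := by
        rw [hE] at hm
        exact mem_Icc.1 (mem_filter.1 hm).1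
      by_cases h4 : J ≤ m
      · exact Or.inr ⟨hm, h4⟩
      · exact Or.inl ⟨h3.1, by omega⟩
    refine (card_le_card h2).trans ((card_union_le _ _).trans ?_)
    rw [Nat.card_Icc]
    omega
  have hmap : ((E.filter (fun m => J ≤ m)) ×ˢ range J).card ≤ ((U ×ˢ V).filter (fun w => P (w.1 * w.2))).card := by
    apply card_le_card_of_injOn (fun q => (((b * g ^ (q.1 - q.2) : (ZMod p)ˣ) : ZMod p), ((g ^ q.2 : (ZMod p)ˣ) : ZMod p)))
    · intro q hq
      rw [mem_coe, mem_product, mem_filter, mem_range] at hq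
      obtain ⟨⟨h2, h3⟩, h4⟩ := hq
      rw [hE, mem_filter, mem_Icc] at h2
      rw [mem_coe, mem_filter, mem_product]
      refine ⟨⟨?_, ?_⟩, ?_⟩
      · rw [hU, mem_image]
        refine ⟨q.1 - q.2 - 1, by rw [mem_range]; omega, ?_⟩
        have e : q.1 - q.2 - 1 + 1 = q.1 - q.2 := by omega
        rw [e]
      · rw [hV, mem_image]
        exact ⟨q.2, mem_range.2 h4, rfl⟩
      · simp only
        rw [← Units.val_mul, mul_assoc, ← pow_add]
        have e : q.1 - q.2 + q.2 = q.1 := by omega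
        rw [e]
        exact h2.2
    · intro q hq q' hq' h
      rw [mem_coe, mem_product, mem_filter, mem_range] at hq hq'
      obtain ⟨⟨h2, h3⟩, h4⟩ := hq
      obtain ⟨⟨h2', h3'⟩, h4'⟩ := hq'
      rw [hE, mem_filter, mem_Icc] at h2 h2'
      simp only [Prod.mk.injEq] at h
      have e2 : q.2 = q'.2 := hinj _ _ (by omega) (by omega) (Units.ext h.2)
      have h5 : b * g ^ (q.1 - q.2) = b * g ^ (q'.1 - q'.2) := Units.ext h.1
      have h6 : g ^ (q.1 - q.2) = g ^ (q'.1 - q'.2) := mul_left_cancel h5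
      have h7 : g ^ (q.1 - q.2 - 1) = g ^ (q'.1 - q'.2 - 1) := by
        have e3 : q.1 - q.2 = (q.1 - q.2 - 1) + 1 := by omega
        have e4 : q'.1 - q'.2 = (q'.1 - q'.2 - 1) + 1 := by omega
        rw [e3, e4, pow_succ, pow_succ] at h6
        exact mul_right_cancel h6
      have h8 := hinj _ _ (by omega) (by omega) h7
      exact Prod.ext (by omega) e2
  rw [card_product, card_range] at hmap
  have h2 : ((E.filter (fun m => J ≤ m)).card : ℝ) * J ≤ x / Z * J := by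
    calc ((E.filter (fun m => J ≤ m)).card : ℝ) * J ≤ ((U ×ˢ V).filter (fun w => P (w.1 * w.2))).card := by
          exact_mod_cast hmap
      _ ≤ x * J / Z := h1
      _ = _ := by ring
  have hJ0 : (0 : ℝ) < J := by exact_mod_cast hJ1
  have h3 := le_of_mul_le_mul_right h2 hJ0
  have h4 : (E.card : ℝ) ≤ J + (E.filter (fun m => J ≤ m)).card := by exact_mod_cast hsplit
  linarith

/-- the choice of the length: from pairs to progressions, for a property depending on the residue -/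
theorem geo_ev (U : ℕ) (δ : ℝ) (hδ : 0 < δ) : ∃ p₀ : ℕ, ∀ p : ℕ, p₀ ≤ p → [Fact p.Prime] →
    ∀ (P : ZMod p → Prop) [DecidablePred P],
    (∀ A B : Finset (ZMod p), (p : ℝ) ^ (1 + δ) ≤ A.card * B.card →
      (((A ×ˢ B).filter (fun w => P (w.1 * w.2))).card : ℝ) ≤ A.card * B.card / Real.log p ^ (U + 1)) →
    ∀ (b g : (ZMod p)ˣ) (x : ℕ), (p : ℝ) ^ (1 / 2 + δ) ≤ x → x ≤ orderOf g →
    (((Icc 1 x).filter (fun m => P (((b * g ^ m : (ZMod p)ˣ) : ZMod p)))).card : ℝ) ≤ x / Real.log p ^ U := by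
  classical
  obtain ⟨n1, hn1⟩ := SM.ev_log 4
  obtain ⟨n2, hn2⟩ := ev_pow (U + 1) 4 δ hδ
  refine ⟨max n1 n2, fun p hp _ P _ hP b g x hx hxg => ?_⟩
  have hL := hn1 p (le_trans (le_max_left _ _) hp)
  have hpL := hn2 p (le_trans (le_max_right _ _) hp)
  obtain ⟨L, hLd⟩ : ∃ L, L = Real.log (p : ℝ) := ⟨_, rfl⟩
  rw [← hLd] at hL hpL hP ⊢
  have hL0 : 0 < L := by linarith
  have hL1 : 1 ≤ L := by linarith
  have hp0 : (0 : ℝ) < p := by exact_mod_cast (Fact.out : p.Prime).pos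
  have hp1 : (1 : ℝ) ≤ p := by exact_mod_cast (Fact.out : p.Prime).one_lt.le
  have hLU : 1 ≤ L ^ (U + 1) := one_le_pow₀ hL1
  have hx2 : (p : ℝ) ^ (1 + 2 * δ) ≤ x * x := by
    have e : (p : ℝ) ^ (1 + 2 * δ) = (p : ℝ) ^ (1 / 2 + δ) * (p : ℝ) ^ (1 / 2 + δ) := by
      rw [← Real.rpow_add hp0]
      congr 1
      ring
    rw [e]
    gcongr
  have hxδ : (p : ℝ) ^ δ ≤ x := by
    refine le_trans ?_ hx
    exact Real.rpow_le_rpow_of_exponent_le hp1 (by linarith)
  have hx0 : (0 : ℝ) < x := lt_of_lt_of_le (by positivity) hxδ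
  obtain ⟨J, hJ⟩ : ∃ J : ℕ, J = ⌊(x : ℝ) / (2 * L ^ (U + 1))⌋₊ := ⟨_, rfl⟩
  have hxL : 2 ≤ (x : ℝ) / (2 * L ^ (U + 1)) := by
    rw [le_div_iff₀ (by positivity)]
    linarith
  have hJhi : (J : ℝ) ≤ (x : ℝ) / (2 * L ^ (U + 1)) := by
    rw [hJ]
    exact Nat.floor_le (by positivity)
  have hJlo : (x : ℝ) / (4 * L ^ (U + 1)) ≤ J := by
    have h1 := Nat.lt_floor_add_one ((x : ℝ) / (2 * L ^ (U + 1)))
    rw [← hJ] at h1
    have e : (x : ℝ) / (4 * L ^ (U + 1)) = (x : ℝ) / (2 * L ^ (U + 1)) / 2 := by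
      rw [div_div]
      congr 1
      ring
    rw [e]
    linarith
  have hJ1 : 1 ≤ J := by
    rw [hJ]
    exact Nat.one_le_iff_ne_zero.2 (by
      rw [ne_eq, Nat.floor_eq_zero, not_lt]
      linarith)
  have hJx : J ≤ x := by
    have : (J : ℝ) ≤ x := hJhi.trans (div_le_self hx0.le (by linarith))
    exact_mod_cast this
  have hJ0 : (0 : ℝ) ≤ J := Nat.cast_nonneg _
  have hprod : (p : ℝ) ^ (1 + δ) ≤ (x : ℝ) * J := by
    have e : (p : ℝ) ^ (1 + 2 * δ) = (p : ℝ) ^ (1 + δ) * (p : ℝ) ^ δ := by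
      rw [← Real.rpow_add hp0]
      congr 1
      ring
    have h1 : (p : ℝ) ^ (1 + δ) * (4 * L ^ (U + 1)) ≤ x * x := by
      calc _ ≤ (p : ℝ) ^ (1 + δ) * (p : ℝ) ^ δ := by gcongr
        _ = (p : ℝ) ^ (1 + 2 * δ) := e.symm
        _ ≤ _ := hx2
    calc (p : ℝ) ^ (1 + δ) ≤ x * x / (4 * L ^ (U + 1)) := by rwa [le_div_iff₀ (by positivity)]
      _ = x * (x / (4 * L ^ (U + 1))) := by ring
      _ ≤ x * J := by gcongr
  have h1 := geo b g x J hJ1 hJx hxg P (L ^ (U + 1)) (by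
    intro A B hA hB
    have h2 := hP A B (by rw [hA, hB]; exact hprod)
    rw [hA, hB] at h2
    exact h2)
  refine h1.trans ?_
  have e1 : (x : ℝ) / (2 * L ^ (U + 1)) = (x / L ^ U) / (2 * L) := by
    rw [div_div]
    congr 1
    ring
  have e2 : (x : ℝ) / L ^ (U + 1) = (x / L ^ U) / L := by
    rw [div_div]
    congr 1
  have hq0 : 0 ≤ (x : ℝ) / L ^ U := by positivity
  calc (J : ℝ) + x / L ^ (U + 1) ≤ (x / L ^ U) / (2 * L) + (x / L ^ U) / L := by
        rw [← e1, ← e2]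
        linarith
    _ = (x / L ^ U) * (3 / (2 * L)) := by
        field_simp
        ring
    _ ≤ (x / L ^ U) * 1 := by
        apply mul_le_mul_of_nonneg_left _ hq0
        rw [div_le_one (by positivity)]
        linarith
    _ = _ := mul_one _

end Pool.Agent.K7.H49.PR
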