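import Mathlib
import Pool.Agent.K7.H49.PR.Geo
import Pool.Agent.K7.H49.SM.Cho

/-! The Liouville function at the values of polynomials times linear factors whose constant terms are taken
from pseudorandom families (helper49). -/

set_option autoImplicit false

namespace Pool.Agent.K7.H49.PR

open Finset
open Pool.Agent.H807R2.Dav
open Pool.Agent.H560R3.GB (energy)

open Classical in
/-- pseudorandom families -/
theorem cho (B C κ U : ℕ) (δ : ℝ) (hδ : 0 < δ) : ∃ N₀ : ℕ, ∀ N : ℕ, N₀ ≤ N →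
    ∀ s L : ℕ, (2 : ℝ) ^ s ≤ Real.log N ^ κ → (L : ℝ) ≤ Real.log N ^ κ →
    ∀ (A : Fin s → Type) (T : ∀ i, Finset (A i)) (t : ∀ i, A i → ℕ) (q : Fin s → ℕ),
    (∀ i, 1 ≤ q i ∧ (N : ℝ) ≤ q i * Real.log N ^ C) →
    (∀ i, ∀ k : ℕ, 1 ≤ k → k < q i →
      ‖∑ a ∈ T i, ee ((k : ℝ) * ((t i a : ℝ) / q i))‖ ≤ (T i).card * (q i : ℝ) ^ (-δ)) →
    ∀ γ c : Fin s → ℤ, (∀ i, γ i ≠ 0) → (∀ i, ∀ a ∈ T i, |c i + γ i * t i a| ≤ B * N) →
    ∀ α : Fin s → ℕ, (∀ i, 1 ≤ α i) → ∀ f : Fin L → Polynomial ℤ,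
    (((Fintype.piFinset T).filter (fun v => ¬ SM.Small B κ U N f α (fun i => c i + γ i * t i (v i)))).card : ℝ) ≤
      (∏ i, ((T i).card : ℝ)) / Real.log N ^ U := by
  obtain ⟨h, hh, hen⟩ := en_delta δ hδ
  obtain ⟨n1, hfam⟩ := SM.cho_fam B (C + 1) κ U h
  obtain ⟨n2, hn2⟩ := SM.ev_log 2
  refine ⟨max n1 n2, fun N hN s L hs hL A T t q hq hsup γ c hγ hc α hα f => ?_⟩
  have hL2 := hn2 N (le_trans (le_max_right _ _) hN)
  have hL0 : 0 < Real.log (N : ℝ) := by linarith
  by_cases hne : ∀ i, (T i).Nonempty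
  swap
  · push Not at hne
    obtain ⟨i, hi⟩ := hne
    have h1 : (Fintype.piFinset T).filter (fun v => ¬ SM.Small B κ U N f α (fun i => c i + γ i * t i (v i))) = ∅ := by
      rw [filter_eq_empty_iff]
      intro v hv
      have := Fintype.mem_piFinset.1 hv i
      rw [hi] at this
      exact absurd this (notMem_empty _)
    rw [h1, card_empty, Nat.cast_zero]
    apply div_nonneg (prod_nonneg fun _ _ => Nat.cast_nonneg _) (by positivity)
  choose a₀ ha₀ using hne
  choose e he1 he2 he3 using fun i => enumA (T i) (a₀ i)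
  have h1 := hfam N (le_trans (le_max_left _ _) hN) s L hs hL (fun i => (T i).card) (fun i m => t i (e i m)) γ c hγ
    (fun i m hm => hc i _ (he1 i m hm)) (fun i => by
      have h2 := hen (A i) (T i) (t i) (q i) (hq i).1 (hsup i) (e i) (he1 i) (he2 i) (he3 i)
      have h3 : (0 : ℝ) ≤ energy h (T i).card (fun m => t i (e i m)) := Nat.cast_nonneg _
      calc (energy h (T i).card (fun m => t i (e i m)) : ℝ) * N ≤
          (energy h (T i).card (fun m => t i (e i m)) : ℝ) * (q i * Real.log N ^ C) :=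
            mul_le_mul_of_nonneg_left (hq i).2 h3
        _ = (energy h (T i).card (fun m => t i (e i m)) : ℝ) * q i * Real.log N ^ C := by ring
        _ ≤ 2 * ((T i).card : ℝ) ^ (2 * h) * Real.log N ^ C := by gcongr
        _ ≤ Real.log N * ((T i).card : ℝ) ^ (2 * h) * Real.log N ^ C := by gcongr
        _ = _ := by ring) α hα f
  rw [Pool.Agent.R459.Fams.count_eq] at h1
  refine le_trans ?_ h1
  rw [Nat.cast_le]
  apply card_le_card_of_surjOn (fun m : Fin s → ℕ => fun i => e i (m i))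
  intro l hl
  rw [mem_coe, mem_filter, Fintype.mem_piFinset] at hl
  choose m hm hml using fun i => he3 i (l i) (hl.1 i)
  refine ⟨m, ?_, funext hml⟩
  rw [mem_coe, mem_filter, Fintype.mem_piFinset]
  refine ⟨hm, ?_⟩
  have e1 : (fun i => c i + γ i * t i (e i (m i))) = fun i => c i + γ i * t i (l i) := by
    funext i
    rw [hml i]
  rw [e1]
  exact hl.2

end Pool.Agent.K7.H49.PR
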